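import Pool.Agent.Lib.MP_c98431_lc.Final

/-!
# MP_c98431_lc: online call admission on the line, all three parameters vary

There is an absolute constant `C` such that for the line with `n ≥ 2` vertices, every capacity `u > 0` and all
ranges `Δb, Δd, Δr ≥ 1` of the benefits, durations and bandwidths (calls may use the whole capacity) there is a
randomized online algorithm with competitive ratio
`C · min (log n, 1 + log Δd) · (log n + log Δb + log Δd + log Δr)`.
-/

set_option autoImplicit false

namespace Pool.Agent.Results.MP_c98431_lc.LineThreeRanges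

open Pool.Agent.MPc98431

theorem result : ∃ C : ℝ, 0 < C ∧ ∀ (n : ℕ) (u Δb Δd Δr : ℝ), 2 ≤ n → 0 < u → 1 ≤ Δb → 1 ≤ Δd →
    1 ≤ Δr → ∃ A : RandAlg n, A.Competitive u Δb Δd Δr
      (C * (min (Real.log n) (1 + Real.log Δd) *
        (Real.log n + Real.log Δb + Real.log Δd + Real.log Δr))) := by
  obtain ⟨C, hC, h⟩ := main
  exact ⟨C, hC, fun n u Δb Δd Δr hn hu hb hd hr => (h n u Δb Δd Δr hn hu hb hd hr).1⟩

end Pool.Agent.Results.MP_c98431_lc.LineThreeRanges
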